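import Pool.Agent.Helper51.UG.Gold
import Pool.Graph.R_seed8.Y882.GX.Sm

set_option autoImplicit false

/-!
# Homothetic copies of every finite pattern in the Goldbach representations of every large even number

For EVERY large even `N` (so for all multiples of all `q`): almost all members of an ARBITRARY set `A` of representations
`N = m + (N - m)` without small prime factors, for instance by two primes, have homothetic copies `m + d T` in `A` of an
ARBITRARY finite pattern `T`, at almost all scales on a logarithmic scale (at least `D ^ (1 - ε)` of the `d ≤ D`). Almost all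
means: all but at most `δ S(N)`, where `S(N)` is the conjectured number of representations. All this holds in short intervals
of length `N ^ θ`, and uniformly in the pattern, also for patterns of diameter up to a power of `N`.

There are enough such representations by a prime and an integer with at most `r` prime factors (`r = 3` for the whole
interval), so for every large even `N` a positive proportion of them have all these copies.
-/

namespace Pool.Agent.Results.MP_92f640_nt.GoldbachConstellations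

open Finset Filter

/-- the variable part of the singular series of the Goldbach problem: the conjectured number of the representations of an
even number `N` is asymptotic to `2 C₂ * sing N * N / (log N) ^ 2` -/
noncomputable def sing (N : ℕ) : ℝ :=
  ∏ p ∈ N.primeFactors.erase 2, (((p : ℝ) - 1) / ((p : ℝ) - 2))

/-- The number of the dilations `1 ≤ d ≤ D` for which all the numbers `m + d t`, `t ∈ T`, belong to `A`. -/
noncomputable def scales (A : Set ℕ) (T : Finset ℤ) (D m : ℕ) : ℕ :=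
  {d : ℕ | 1 ≤ d ∧ d ≤ D ∧ ∀ t ∈ T, ∃ a ∈ A, (a : ℤ) = m + d * t}.ncard

/-- The primes `p` with `X / 4 < p < X` such that `N - p` has at most `r` prime factors (counted with multiplicity), all of
them at least `N ^ ζ / 2`. -/
def Chen (r : ℕ) (ζ : ℝ) (X N : ℕ) : Set ℕ :=
  {p | p.Prime ∧ (X : ℝ) / 4 < p ∧ p < X ∧ (N - p).primeFactorsList.length ≤ r ∧
    ∀ q : ℕ, q.Prime → q ∣ (N - p) → (N : ℝ) ^ ζ / 2 ≤ q}

/-- The Goldbach representations of `N`: the primes `p < N / 2` such that `N - p` is a prime. -/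
def Gold (N : ℕ) : Set ℕ := {p | p.Prime ∧ (N - p).Prime ∧ 2 * p < N}

/-- the lower bound of the library (`Y882.GX`) for the number of the primes `p` such that `N - p` has few prime factors -/
theorem lower (r : ℕ) (θ τ : ℝ) (hτ0 : 0 < τ) (hτθ : τ < θ / 2) (hθ1 : θ ≤ 1)
    (hr : 10 / 9 < (r + 3 / 80) * τ) :
    ∃ δ : ℝ, 0 < δ ∧ ∃ N₀ : ℕ, ∀ N : ℕ, N₀ ≤ N → Even N →
      ∀ X : ℕ, (N : ℝ) ^ θ ≤ X → 2 * X ≤ N →
        δ * (sing N * (X / Real.log N ^ 2)) ≤ ((Chen r (τ / 4) X N).ncard : ℝ) := by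
  classical
  have hθ0 : 0 < θ := by linarith
  have hJ := Pool.Agent.Y882.KW.cond_C τ (80 / 77) hτ0 (by norm_num) (by norm_num)
  obtain ⟨δ, hδ, Y0, H⟩ := Pool.Agent.Y882.GX.ptw r θ τ (τ / 4) (9 / 10 * τ) (80 / 77)
    ((r + 3 / 80) * (9 / 10 * τ))
    hθ0 hθ1 (by linarith) (by linarith) (by linarith) hτθ (by linarith) (by linarith)
    (by norm_num) hJ (by nlinarith) (by
      rw [mul_div_assoc, div_self (by positivity)]
      norm_num
      linarith)
  refine ⟨δ, hδ, 2 * (max Y0 3), fun N hN hev X hx1 hx2 => ?_⟩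
  obtain ⟨Y, hYN⟩ := hev
  have hNY : N = 2 * Y := by omega
  have hYm : max Y0 3 ≤ Y := by omega
  have hY0 : Y0 ≤ Y := (le_max_left _ _).trans hYm
  have hY3 : 3 ≤ Y := (le_max_right _ _).trans hYm
  have hYr : (3 : ℝ) ≤ Y := by exact_mod_cast hY3
  have hNr : (N : ℝ) = 2 * Y := by rw [hNY]; push_cast; ring
  have hxY : (X : ℝ) ≤ Y := by
    have : X ≤ Y := by omega
    exact_mod_cast this
  have hYx : (Y : ℝ) ^ θ ≤ X :=
    (Real.rpow_le_rpow (by positivity) (by rw [hNr]; linarith) hθ0.le).trans hx1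
  have hx0 : (0 : ℝ) < X := lt_of_lt_of_le (Real.rpow_pos_of_pos (by linarith) _) hYx
  have hYN1 : Y < N := by omega
  have hYN2 : N ≤ 2 * Y := by omega
  have g1 := H Y hY0 X hYx hxY N hYN1 hYN2 ⟨Y, hYN⟩
  have h7 := Pool.Agent.Y882.GX.gp_le_inWindow r (τ / 4) X X (by linarith) (by linarith) Y N (by omega)
      hYN1 hYN2 le_rfl (by linarith) hxY
  have h8 : (((range N).filter (fun p : ℕ => p.Prime ∧ (X : ℝ) / 4 < p ∧ (p : ℝ) < X ∧
      (N - p).primeFactorsList.length ≤ r ∧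
      ∀ q : ℕ, q.Prime → q ∣ (N - p) → (N : ℝ) ^ (τ / 4) / 2 ≤ q)).card : ℝ) ≤
      ((Chen r (τ / 4) X N).ncard : ℝ) := by
    rw [← Set.ncard_coe_finset]
    apply Nat.cast_le.2
    apply Set.ncard_le_ncard
    · intro p hp
      rw [coe_filter, Set.mem_ofPred_eq] at hp
      obtain ⟨_, h1, h2, h3, h4, h5⟩ := hp
      exact ⟨h1, h2, by exact_mod_cast h3, h4, h5⟩
    · exact (Set.finite_Iio X).subset fun p hp => hp.2.2.1
  have h9 : ((Pool.Agent.Y882.GW.gp r X ((Y : ℝ) ^ (τ / 4)) N).card : ℝ) ≤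
      ((Chen r (τ / 4) X N).ncard : ℝ) := by
    have h10 : ((Pool.Agent.Y882.GW.gp r X ((Y : ℝ) ^ (τ / 4)) N).card : ℝ) ≤
        (Pool.Agent.Y882.GX.inWindow r (τ / 4) X N : ℝ) := by exact_mod_cast h7
    exact h10.trans h8
  refine le_trans ?_ (g1.trans h9)
  have hlY : 0 < Real.log Y := Real.log_pos (by linarith)
  have hs1 : 1 ≤ Pool.Agent.Y882.sgs N := Pool.Agent.Y882.one_le_sgs N
  have hl : Real.log Y ≤ Real.log N := Real.log_le_log (by linarith) (by rw [hNr]; linarith)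
  have h15 : (X : ℝ) / Real.log N ^ 2 ≤ X / Real.log Y ^ 2 :=
    div_le_div_of_nonneg_left hx0.le (by positivity) (pow_le_pow_left₀ hlY.le hl 2)
  have e1 : sing N = Pool.Agent.Y882.sgs N := rfl
  rw [e1]
  calc δ * (Pool.Agent.Y882.sgs N * (X / Real.log N ^ 2))
      ≤ δ * (Pool.Agent.Y882.sgs N * (X / Real.log Y ^ 2)) :=
        mul_le_mul_of_nonneg_left (mul_le_mul_of_nonneg_left h15 (by linarith)) hδ.le
    _ = δ * X / Real.log Y ^ 2 * Pool.Agent.Y882.sgs N := by ring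

/-- arbitrary sets -/
theorem arb (k : ℕ) (ε θ ζ δ : ℝ) (hε : 0 < ε) (hε1 : ε < 1) (hθ : 0 < θ) (hζ : 0 < ζ)
    (hδ : 0 < δ) :
    ∃ N₀ : ℕ, ∀ N : ℕ, N₀ ≤ N → Even N → ∀ X u : ℕ, (N : ℝ) ^ θ ≤ X → u + 2 * X < N →
      ∀ H D : ℕ, 1 ≤ H → (X : ℝ) ^ ε ≤ D → (D : ℝ) * H ≤ (X : ℝ) ^ (1 - ε) →
      ∀ A : Set ℕ, (∀ m ∈ A, u < m ∧ m ≤ u + X ∧ ∀ q : ℕ, q.Prime → (q ∣ m ∨ q ∣ N - m) →
        (N : ℝ) ^ ζ < q) →
      ∀ T : Finset ℤ, T.card ≤ k → (∀ t ∈ T, |t| ≤ H) →
        ({m : ℕ | m ∈ A ∧ (scales A T D m : ℝ) < (D : ℝ) ^ (1 - ε)}.ncard : ℝ) ≤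
          δ * (sing N * (X / Real.log N ^ 2)) :=
  Pool.Agent.Helper51.UG.goldPt k ε θ ζ δ hε hε1 hθ hζ hδ

theorem split (A : Set ℕ) (hA : A.Finite) (T : Finset ℤ) (D : ℕ) (v : ℝ) :
    (A.ncard : ℝ) ≤ ({m : ℕ | m ∈ A ∧ v ≤ (scales A T D m : ℝ)}.ncard : ℝ) +
      ({m : ℕ | m ∈ A ∧ (scales A T D m : ℝ) < v}.ncard : ℝ) := by
  have hsub : A ⊆ {m : ℕ | m ∈ A ∧ v ≤ (scales A T D m : ℝ)} ∪
      {m : ℕ | m ∈ A ∧ (scales A T D m : ℝ) < v} := by
    intro m hm
    by_cases h5 : v ≤ (scales A T D m : ℝ)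
    · exact Or.inl ⟨hm, h5⟩
    · exact Or.inr ⟨hm, not_le.1 h5⟩
  have hc3 := (Set.ncard_le_ncard hsub ((hA.subset fun m hm => hm.1).union
    (hA.subset fun m hm => hm.1))).trans (Set.ncard_union_le _ _)
  exact_mod_cast hc3

theorem scales_mono {A B : Set ℕ} (h : A ⊆ B) (T : Finset ℤ) (D m : ℕ) :
    scales A T D m ≤ scales B T D m := by
  unfold scales
  apply Set.ncard_le_ncard
  · rintro d ⟨h1, h2, h3⟩
    exact ⟨h1, h2, fun t ht => by
      obtain ⟨a, ha, ha2⟩ := h3 t ht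
      exact ⟨a, h ha, ha2⟩⟩
  · exact (Set.finite_Icc 1 D).subset fun d hd => ⟨hd.1, hd.2.1⟩

/-- **Homothetic copies of every pattern in the Goldbach representations of every large even number.** -/
theorem result :
    -- (1) arbitrary sets of representations without small prime factors
    (∀ (k : ℕ) (ε θ ζ δ : ℝ), 0 < ε → ε < 1 → 0 < θ → 0 < ζ → 0 < δ →
      ∃ N₀ : ℕ, ∀ N : ℕ, N₀ ≤ N → Even N → ∀ X u : ℕ, (N : ℝ) ^ θ ≤ X → u + 2 * X < N →
      ∀ H D : ℕ, 1 ≤ H → (X : ℝ) ^ ε ≤ D → (D : ℝ) * H ≤ (X : ℝ) ^ (1 - ε) →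
      ∀ A : Set ℕ, (∀ m ∈ A, u < m ∧ m ≤ u + X ∧ ∀ q : ℕ, q.Prime → (q ∣ m ∨ q ∣ N - m) →
        (N : ℝ) ^ ζ < q) →
      ∀ T : Finset ℤ, T.card ≤ k → (∀ t ∈ T, |t| ≤ H) →
        ({m : ℕ | m ∈ A ∧ (scales A T D m : ℝ) < (D : ℝ) ^ (1 - ε)}.ncard : ℝ) ≤
          δ * (sing N * (X / Real.log N ^ 2))) ∧
    -- (2) representations by two primes
    (∀ (k : ℕ) (ε δ : ℝ), 0 < ε → ε < 1 → 0 < δ → ∃ N₀ : ℕ, ∀ N : ℕ, N₀ ≤ N → Even N →
      ∀ H D : ℕ, 1 ≤ H → (N : ℝ) ^ ε ≤ D → (D : ℝ) * H ≤ (N : ℝ) ^ (1 - ε) →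
      ∀ T : Finset ℤ, T.card ≤ k → (∀ t ∈ T, |t| ≤ H) →
        ((Gold N).ncard : ℝ) - δ * (sing N * (N / Real.log N ^ 2)) ≤
          ({p : ℕ | p ∈ Gold N ∧ (D : ℝ) ^ (1 - ε) ≤ (scales (Gold N) T D p : ℝ)}.ncard : ℝ)) ∧
    -- (3) representations by a prime and a number with at most `r` prime factors
    ∀ (r : ℕ) (θ : ℝ), 0 < θ → θ ≤ 1 → 20 / (9 * θ) - 3 / 80 < r →
      ∃ ζ : ℝ, 0 < ζ ∧ ∃ c : ℝ, 0 < c ∧ ∀ (k : ℕ) (ε : ℝ), 0 < ε → ε < 1 →
      ∃ N₀ : ℕ, ∀ N : ℕ, N₀ ≤ N → Even N → ∀ X : ℕ, (N : ℝ) ^ θ ≤ X → 2 * X < N →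
      ∀ H D : ℕ, 1 ≤ H → (X : ℝ) ^ ε ≤ D → (D : ℝ) * H ≤ (X : ℝ) ^ (1 - ε) →
      ∀ T : Finset ℤ, T.card ≤ k → (∀ t ∈ T, |t| ≤ H) →
        c * (sing N * (X / Real.log N ^ 2)) ≤
          ({p : ℕ | p ∈ Chen r ζ X N ∧
            (D : ℝ) ^ (1 - ε) ≤ (scales (Chen r ζ X N) T D p : ℝ)}.ncard : ℝ) := by
  refine ⟨fun k ε θ ζ δ h1 h2 h3 h4 h5 => arb k ε θ ζ δ h1 h2 h3 h4 h5, ?_, ?_⟩
  · intro k ε δ hε hε1 hδ
    obtain ⟨N₀, hN₀⟩ := arb k (ε / 2) (1 / 2) (1 / 2) (δ / 2) (by positivity) (by linarith)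
      (by norm_num) (by norm_num) (by positivity)
    obtain ⟨N₁, hN₁⟩ := Pool.Agent.Helper51.UD.ev_rpow 3 (ε / 2) (by positivity)
    obtain ⟨N₂, hN₂⟩ := Pool.Agent.Helper51.UD.ev_rpow 6 (1 / 2) (by norm_num)
    obtain ⟨K, hK⟩ : ∃ K : ℝ, K = max 1 (2 / δ) := ⟨_, rfl⟩
    obtain ⟨N₃, hN₃⟩ := Pool.Agent.Helper51.UD.ev_log K (1 / 4) (by norm_num)
    refine ⟨max (max N₀ N₁) (max (max N₂ N₃) 8), fun N hN hev H D hH hD hDH T hTk hT => ?_⟩
    have g0 : N₀ ≤ N := ((le_max_left _ _).trans (le_max_left _ _)).trans hN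
    have g1 := hN₁ N (((le_max_right _ _).trans (le_max_left _ _)).trans hN)
    have g2 := hN₂ N (((le_max_left _ _).trans ((le_max_left _ _).trans (le_max_right _ _))).trans hN)
    have g3 := hN₃ N (((le_max_right _ _).trans ((le_max_left _ _).trans (le_max_right _ _))).trans hN)
    have g4 : 8 ≤ N := ((le_max_right _ _).trans (le_max_right _ _)).trans hN
    obtain ⟨Y, hY⟩ := hev
    obtain ⟨X, hX⟩ : ∃ X, X = Y - 1 := ⟨_, rfl⟩
    have hNr8 : (8 : ℝ) ≤ N := by exact_mod_cast g4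
    have hN0 : (0 : ℝ) < N := by linarith
    have hN1 : (1 : ℝ) ≤ N := by linarith
    have hXN : N ≤ 3 * X := by omega
    have hXNr : (N : ℝ) ≤ 3 * X := by exact_mod_cast hXN
    have hXN2 : X ≤ N := by omega
    have hXN2r : (X : ℝ) ≤ N := by exact_mod_cast hXN2
    have hX0 : (0 : ℝ) < X := by linarith
    have hX1 : (1 : ℝ) ≤ X := by linarith
    have hD1 : (1 : ℝ) ≤ D := (Real.one_le_rpow hN1 hε.le).trans hD
    have hsq : (N : ℝ) ^ (1 / 2 : ℝ) * (N : ℝ) ^ (1 / 2 : ℝ) = N := by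
      rw [← Real.rpow_add hN0]
      norm_num
    have hsq0 : 0 < (N : ℝ) ^ (1 / 2 : ℝ) := by positivity
    -- the set
    obtain ⟨A, hA⟩ : ∃ A : Set ℕ, A = {p | p ∈ Gold N ∧ (N : ℝ) ^ (1 / 2 : ℝ) < p} := ⟨_, rfl⟩
    have hGfin : (Gold N).Finite := (Set.finite_Iio N).subset fun p hp => by
      have := hp.2.2
      rw [Set.mem_Iio]
      omega
    have hAG : A ⊆ Gold N := by
      rw [hA]
      exact fun p hp => hp.1
    have hAfin : A.Finite := hGfin.subset hAG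
    have hmain := hN₀ N g0 ⟨Y, hY⟩ X 0 (by nlinarith) (by omega) H D hH
      ((Real.rpow_le_rpow_of_exponent_le hX1 (by linarith)).trans
        ((Real.rpow_le_rpow hX0.le hXN2r hε.le).trans hD))
      (by
        refine hDH.trans ?_
        have e1 : (N : ℝ) ^ (1 - ε) * 3 ≤ (N : ℝ) ^ (1 - ε / 2) := by
          calc (N : ℝ) ^ (1 - ε) * 3 ≤ (N : ℝ) ^ (1 - ε) * (N : ℝ) ^ (ε / 2) :=
                mul_le_mul_of_nonneg_left g1 (by positivity)
            _ = (N : ℝ) ^ (1 - ε / 2) := by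
                rw [← Real.rpow_add hN0]
                congr 1
                ring
        have e2 : (N : ℝ) ^ (1 - ε / 2) ≤ 3 * (X : ℝ) ^ (1 - ε / 2) := by
          calc (N : ℝ) ^ (1 - ε / 2) ≤ (3 * (X : ℝ)) ^ (1 - ε / 2) :=
                Real.rpow_le_rpow hN0.le hXNr (by linarith)
            _ = (3 : ℝ) ^ (1 - ε / 2) * (X : ℝ) ^ (1 - ε / 2) :=
                Real.mul_rpow (by norm_num) hX0.le
            _ ≤ 3 * (X : ℝ) ^ (1 - ε / 2) := by
                apply mul_le_mul_of_nonneg_right _ (by positivity)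
                calc (3 : ℝ) ^ (1 - ε / 2) ≤ (3 : ℝ) ^ (1 : ℝ) :=
                      Real.rpow_le_rpow_of_exponent_le (by norm_num) (by linarith)
                  _ = 3 := Real.rpow_one 3
        linarith)
      A (by
        intro p hp
        rw [hA] at hp
        obtain ⟨⟨h1, h2, h3⟩, h4⟩ := hp
        refine ⟨h1.pos, by omega, fun q hq hqd => ?_⟩
        rcases hqd with h5 | h5
        · rw [(Nat.prime_dvd_prime_iff_eq hq h1).1 h5]
          exact h4
        · rw [(Nat.prime_dvd_prime_iff_eq hq h2).1 h5]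
          have h6 : (N : ℝ) / 2 ≤ ((N - p : ℕ) : ℝ) := by
            rw [Nat.cast_sub (by omega)]
            have : (2 : ℝ) * p < N := by exact_mod_cast h3
            linarith
          nlinarith) T hTk hT
    have h1 := split A hAfin T D ((D : ℝ) ^ (1 - ε / 2))
    -- the small primes
    have h2 : ((Gold N).ncard : ℝ) ≤ A.ncard + (N : ℝ) ^ (1 / 2 : ℝ) := by
      have e1 : Gold N ⊆ A ∪ (Icc 1 ⌊(N : ℝ) ^ (1 / 2 : ℝ)⌋₊ : Finset ℕ) := by
        intro p hp
        by_cases h3 : (N : ℝ) ^ (1 / 2 : ℝ) < p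
        · left
          rw [hA]
          exact ⟨hp, h3⟩
        · right
          rw [coe_Icc]
          exact ⟨hp.1.pos, Nat.le_floor (not_lt.1 h3)⟩
      have e2 := (Set.ncard_le_ncard e1 (hAfin.union (Finset.finite_toSet _))).trans
        (Set.ncard_union_le _ _)
      rw [Set.ncard_coe_finset, Nat.card_Icc, Nat.add_sub_cancel] at e2
      have e3 : ((Gold N).ncard : ℝ) ≤ A.ncard + (⌊(N : ℝ) ^ (1 / 2 : ℝ)⌋₊ : ℝ) := by
        exact_mod_cast e2
      have e4 := Nat.floor_le hsq0.le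
      linarith
    have hlog : 0 < Real.log N := Real.log_pos (by linarith)
    have hsing : 1 ≤ sing N := Pool.Agent.Helper51.UG.sgN_ge N
    have h3 : (N : ℝ) ^ (1 / 2 : ℝ) ≤ δ / 2 * (sing N * (N / Real.log N ^ 2)) := by
      have hK1 : 1 ≤ K := hK ▸ le_max_left _ _
      have hK2 : 2 / δ ≤ K := hK ▸ le_max_right _ _
      have e1 : (K * Real.log N) ^ 2 ≤ (N : ℝ) ^ (1 / 2 : ℝ) := by
        calc (K * Real.log N) ^ 2 ≤ ((N : ℝ) ^ (1 / 4 : ℝ)) ^ 2 :=
              pow_le_pow_left₀ (by positivity) g3 2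
          _ = (N : ℝ) ^ (1 / 2 : ℝ) := by
              rw [← Real.rpow_natCast, ← Real.rpow_mul hN0.le]
              norm_num
      have e2 : 2 / δ * Real.log N ^ 2 ≤ (N : ℝ) ^ (1 / 2 : ℝ) := by
        refine le_trans ?_ e1
        rw [mul_pow]
        apply mul_le_mul_of_nonneg_right _ (by positivity)
        nlinarith
      have e3 : (N : ℝ) ^ (1 / 2 : ℝ) ≤ δ / 2 * (N / Real.log N ^ 2) := by
        rw [← mul_div_assoc, le_div_iff₀ (by positivity)]
        have e4 : Real.log N ^ 2 ≤ δ / 2 * (N : ℝ) ^ (1 / 2 : ℝ) := by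
          have := mul_le_mul_of_nonneg_left e2 (show 0 ≤ δ / 2 by positivity)
          calc Real.log N ^ 2 = δ / 2 * (2 / δ * Real.log N ^ 2) := by field_simp
            _ ≤ _ := this
        calc (N : ℝ) ^ (1 / 2 : ℝ) * Real.log N ^ 2
            ≤ (N : ℝ) ^ (1 / 2 : ℝ) * (δ / 2 * (N : ℝ) ^ (1 / 2 : ℝ)) :=
              mul_le_mul_of_nonneg_left e4 hsq0.le
          _ = δ / 2 * ((N : ℝ) ^ (1 / 2 : ℝ) * (N : ℝ) ^ (1 / 2 : ℝ)) := by ring
          _ = δ / 2 * N := by rw [hsq]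
      refine e3.trans ?_
      apply mul_le_mul_of_nonneg_left _ (by positivity)
      exact le_mul_of_one_le_left (by positivity) hsing
    have h4 : δ / 2 * (sing N * (X / Real.log N ^ 2)) ≤ δ / 2 * (sing N * (N / Real.log N ^ 2)) := by
      apply mul_le_mul_of_nonneg_left _ (by positivity)
      apply mul_le_mul_of_nonneg_left _ (by linarith)
      exact div_le_div_of_nonneg_right hXN2r (by positivity)
    have h5 : ({m : ℕ | m ∈ A ∧ (D : ℝ) ^ (1 - ε / 2) ≤ (scales A T D m : ℝ)}.ncard : ℝ) ≤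
        ({p : ℕ | p ∈ Gold N ∧ (D : ℝ) ^ (1 - ε) ≤ (scales (Gold N) T D p : ℝ)}.ncard : ℝ) := by
      apply Nat.cast_le.2
      apply Set.ncard_le_ncard
      · rintro p ⟨e1, e2⟩
        refine ⟨hAG e1, ?_⟩
        have e3 : (scales A T D p : ℝ) ≤ scales (Gold N) T D p := by
          exact_mod_cast scales_mono hAG T D p
        have e4 : (D : ℝ) ^ (1 - ε) ≤ (D : ℝ) ^ (1 - ε / 2) :=
          Real.rpow_le_rpow_of_exponent_le hD1 (by linarith)
        linarith
      · exact hGfin.subset fun p hp => hp.1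
    linarith
  · intro r θ hθ0 hθ1 hr
    -- the exponent
    obtain ⟨τ, hτ0, hτθ, hτr⟩ : ∃ τ : ℝ, 0 < τ ∧ τ < θ / 2 ∧ 10 / 9 < (r + 3 / 80) * τ := by
      have hr0 : (0 : ℝ) < r + 3 / 80 := by positivity
      have h1 : 10 / 9 / (r + 3 / 80) < θ / 2 := by
        rw [div_lt_iff₀ hr0]
        have h2 : 20 / (9 * θ) < r + 3 / 80 := by linarith
        rw [div_lt_iff₀ (by positivity)] at h2
        linarith
      obtain ⟨τ, h2, h3⟩ := exists_between h1
      refine ⟨τ, lt_trans (by positivity) h2, h3, ?_⟩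
      rw [div_lt_iff₀ hr0] at h2
      linarith
    obtain ⟨δ, hδ, N₁, hlow⟩ := lower r θ τ hτ0 hτθ hθ1 hτr
    refine ⟨τ / 4, by positivity, δ / 2, by positivity, fun k ε hε hε1 => ?_⟩
    obtain ⟨N₀, hN₀⟩ := arb k ε θ (τ / 5) (δ / 2) hε hε1 hθ0 (by positivity) (by positivity)
    obtain ⟨N₂, hN₂⟩ := Pool.Agent.Helper51.UD.ev_rpow 3 (τ / 20) (by positivity)
    obtain ⟨N₃, hN₃⟩ := Pool.Agent.Helper51.UD.ev_rpow 5 (θ - τ / 5) (by linarith)
    refine ⟨max (max N₀ N₁) (max (max N₂ N₃) 2), fun N hN hev X hX1 hX2 H D hH hD hDH T hTk hT => ?_⟩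
    have g0 : N₀ ≤ N := ((le_max_left _ _).trans (le_max_left _ _)).trans hN
    have g1 : N₁ ≤ N := ((le_max_right _ _).trans (le_max_left _ _)).trans hN
    have g2 := hN₂ N (((le_max_left _ _).trans ((le_max_left _ _).trans (le_max_right _ _))).trans hN)
    have g3 := hN₃ N (((le_max_right _ _).trans ((le_max_left _ _).trans (le_max_right _ _))).trans hN)
    have g4 : 2 ≤ N := ((le_max_right _ _).trans (le_max_right _ _)).trans hN
    have hN0 : (0 : ℝ) < N := by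
      have : 0 < N := by omega
      exact_mod_cast this
    have hpos : 0 < (N : ℝ) ^ (τ / 5) := by positivity
    have hCfin : (Chen r (τ / 4) X N).Finite := (Set.finite_Iio X).subset fun p hp => hp.2.2.1
    have hmain := hN₀ N g0 hev X 0 hX1 (by omega) H D hH hD hDH (Chen r (τ / 4) X N) (by
      intro p hp
      obtain ⟨h1, h2, h3, h4, h5⟩ := hp
      refine ⟨h1.pos, by omega, fun q hq hqd => ?_⟩
      rcases hqd with h6 | h6
      · rw [(Nat.prime_dvd_prime_iff_eq hq h1).1 h6]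
        have e1 : (N : ℝ) ^ θ = (N : ℝ) ^ (τ / 5) * (N : ℝ) ^ (θ - τ / 5) := by
          rw [← Real.rpow_add hN0]
          congr 1
          ring
        have e2 : (N : ℝ) ^ (τ / 5) * 5 ≤ (N : ℝ) ^ θ := by
          rw [e1]
          exact mul_le_mul_of_nonneg_left g3 hpos.le
        linarith
      · have e1 := h5 q hq h6
        have e2 : (N : ℝ) ^ (τ / 4) = (N : ℝ) ^ (τ / 5) * (N : ℝ) ^ (τ / 20) := by
          rw [← Real.rpow_add hN0]
          congr 1
          ring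
        have e3 : (N : ℝ) ^ (τ / 5) * 3 ≤ (N : ℝ) ^ (τ / 4) := by
          rw [e2]
          exact mul_le_mul_of_nonneg_left g2 hpos.le
        linarith) T hTk hT
    have h1 := split (Chen r (τ / 4) X N) hCfin T D ((D : ℝ) ^ (1 - ε))
    have h2 := hlow N g1 hev X hX1 (by omega)
    have h3 : δ * (sing N * (X / Real.log N ^ 2)) = δ / 2 * (sing N * (X / Real.log N ^ 2)) +
      δ / 2 * (sing N * (X / Real.log N ^ 2)) := by ring
    linarith

end Pool.Agent.Results.MP_92f640_nt.GoldbachConstellations
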