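import Pool.Agent.Helper51.UG.GoldFam

set_option autoImplicit false

/-!
# Goldbach's problem for ALL multiples of the moduli near the values of a polynomial: lower bounds and patterns

The question asks for a lower bound of the right order for the number of the Goldbach representations of the even multiples
`n` of `q`, with few exceptions, or with none if `q` is close to `n`. Let `F` be ANY nonconstant polynomial with integral
coefficients and positive leading coefficient. For all but `x / log ^ U x` of the integers `j ≤ x`, ALL moduli `q` with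
`|q - F(j)| ≤ log ^ A x` and ALL even multiples `n ≤ q log ^ A x` of them, without exceptions, are regular: in every window
`(u, u + X]` of length at least `n / log ^ A n` the number of the primes `p` with `n - p` prime has at least the order of
magnitude `X / log ^ 2 n`; and for EVERY set `P` of such primes in the window and EVERY finite set `T` of at most `m` integers in
`[-H, H]`, all but a proportion `δ` (of the number of all these primes in the window) of the elements `p` of `P` have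
`p + d T` contained in `P` for at least `D ^ (1 - ε)` of the `d ≤ D`, uniformly up to `D H = X ^ (1 - ε)`.

The same holds for the moduli near the members of every finite sequence of nearly minimal additive energy of some order.
-/

namespace Pool.Agent.Results.MP_92f640_nt.ModuliNearPolynomials

open Finset Filter Polynomial

/-- The Goldbach representations `n = p + (n - p)` with `p` in the window `(u, u + X]`. -/
def Gold (n u X : ℕ) : Set ℕ := {p | u < p ∧ p ≤ u + X ∧ p.Prime ∧ (n - p).Prime}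

/-- The number of the `1 ≤ d ≤ D` for which all the numbers `p + d t`, `t ∈ T`, belong to `P`. -/
noncomputable def scales (P : Set ℕ) (T : Finset ℤ) (D p : ℕ) : ℕ :=
  {d : ℕ | 1 ≤ d ∧ d ≤ D ∧ ∀ t ∈ T, ∃ q ∈ P, (q : ℤ) = p + d * t}.ncard

/-- The two properties of the even number `n`, in all windows of length at least `n / log ^ A n`. -/
def Regular (c : ℝ) (A m : ℕ) (ε δ : ℝ) (n : ℕ) : Prop :=
  ∀ u X : ℕ, (n : ℝ) / Real.log n ^ A ≤ X → u + 2 * X < n →
    c * (X / Real.log n ^ 2) ≤ ((Gold n u X).ncard : ℝ) ∧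
    ∀ H D : ℕ, 1 ≤ H → (X : ℝ) ^ ε ≤ D → (D : ℝ) * H ≤ (X : ℝ) ^ (1 - ε) →
      ∀ P ⊆ Gold n u X, ∀ T : Finset ℤ, T.card ≤ m → (∀ t ∈ T, |t| ≤ H) →
        ({p : ℕ | p ∈ P ∧ (scales P T D p : ℝ) < (D : ℝ) ^ (1 - ε)}.ncard : ℝ) ≤
          δ * ((Gold n u X).ncard : ℝ)

/-- The additive energy of order `h` of `v 1, ..., v x`: the number of the solutions of
`v (i 1) + ... + v (i h) = v (j 1) + ... + v (j h)`. -/
def energy (h x : ℕ) (v : ℕ → ℤ) : ℕ :=
  ((Fintype.piFinset (fun _ : Fin h => Icc 1 x) ×ˢ Fintype.piFinset (fun _ : Fin h => Icc 1 x)).filter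
    (fun q => ∑ i, v (q.1 i) = ∑ i, v (q.2 i))).card

theorem fam : ∃ c : ℝ, 0 < c ∧ ∀ (h A C U m : ℕ) (ε δ : ℝ), 0 < ε → ε ≤ 1 / 2 → 0 < δ →
    ∃ N₀ : ℕ, ∀ N : ℕ, N₀ ≤ N → ∀ (x : ℕ) (v : ℕ → ℤ), (∀ j ∈ Icc 1 x, |v j| ≤ N) →
      (energy h x v : ℝ) * N ≤ Real.log N ^ C * (x : ℝ) ^ (2 * h) →
      ∃ E : Finset ℕ, (E.card : ℝ) ≤ x / Real.log N ^ U ∧ ∀ j ∈ Icc 1 x, j ∉ E →
        ∀ q : ℕ, 1 ≤ q → |((q - v j : ℤ) : ℝ)| ≤ Real.log N ^ A → ∀ n : ℕ, Even n → q ∣ n →
          (N : ℝ) / Real.log N ^ A ≤ n → (n : ℝ) ≤ q * Real.log N ^ A → Regular c A m ε δ n :=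
  Pool.Agent.Helper51.UG.goldFam

/-- the values of a polynomial are bounded -/
theorem eval_le (f : ℤ[X]) (x j : ℕ) (hj : j ≤ x) (hx : 1 ≤ x) :
    |f.eval (j : ℤ)| ≤ (∑ i ∈ range (f.natDegree + 1), (f.coeff i).natAbs : ℕ) * ((x ^ f.natDegree : ℕ) : ℤ) := by
  rw [eval_eq_sum_range]
  refine (abs_sum_le_sum_abs _ _).trans ?_
  push_cast
  rw [sum_mul]
  apply sum_le_sum
  intro i hi
  rw [mem_range] at hi
  rw [abs_mul, abs_pow, Nat.abs_cast]
  apply mul_le_mul_of_nonneg_left _ (abs_nonneg _)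
  have h1 : j ^ i ≤ x ^ f.natDegree :=
    (Nat.pow_le_pow_left hj i).trans (Nat.pow_le_pow_right hx (by omega))
  exact_mod_cast h1

/-- the values of a polynomial with positive leading coefficient are large -/
theorem le_eval (f : ℤ[X]) (hd : 1 ≤ f.natDegree) (hl : 0 < f.leadingCoeff) (j : ℕ)
    (hj : 2 * (∑ i ∈ range (f.natDegree + 1), (f.coeff i).natAbs) ≤ j) :
    ((j ^ f.natDegree : ℕ) : ℤ) ≤ 2 * f.eval (j : ℤ) := by
  obtain ⟨k, hk⟩ : ∃ k, f.natDegree = k + 1 := ⟨f.natDegree - 1, by omega⟩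
  set B : ℕ := ∑ i ∈ range (f.natDegree + 1), (f.coeff i).natAbs with hB
  have hB1 : 1 ≤ B := by
    have h1 : (f.coeff f.natDegree).natAbs ≤ B :=
      single_le_sum (f := fun i => (f.coeff i).natAbs) (fun i _ => Nat.zero_le _) (mem_range.2 (Nat.lt_succ_self _))
    have h2 : f.coeff f.natDegree = f.leadingCoeff := rfl
    rw [h2] at h1
    omega
  have hj1 : 1 ≤ j := by omega
  have h1 : -((B : ℤ) * (j : ℤ) ^ k) ≤ ∑ i ∈ range f.natDegree, f.coeff i * (j : ℤ) ^ i := by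
    have h2 : ∑ i ∈ range f.natDegree, -(((f.coeff i).natAbs : ℤ) * (j : ℤ) ^ k) ≤
        ∑ i ∈ range f.natDegree, f.coeff i * (j : ℤ) ^ i := by
      apply sum_le_sum
      intro i hi
      rw [mem_range] at hi
      have h3 : (j : ℤ) ^ i ≤ (j : ℤ) ^ k := by
        apply pow_le_pow_right₀
        · exact_mod_cast hj1
        · omega
      have h4 : (0 : ℤ) ≤ (j : ℤ) ^ i := by positivity
      have h5 : -((f.coeff i).natAbs : ℤ) ≤ f.coeff i := by omega
      have h6 : (0 : ℤ) ≤ ((f.coeff i).natAbs : ℤ) := by positivity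
      nlinarith
    refine le_trans ?_ h2
    rw [sum_neg_distrib, ← sum_mul]
    apply neg_le_neg
    apply mul_le_mul_of_nonneg_right _ (by positivity)
    rw [hB]
    push_cast
    apply sum_le_sum_of_subset_of_nonneg
    · intro i hi
      rw [mem_range] at hi ⊢
      omega
    · intro i _ _
      positivity
  have h2 : f.eval (j : ℤ) = ∑ i ∈ range f.natDegree, f.coeff i * (j : ℤ) ^ i + f.leadingCoeff * (j : ℤ) ^ f.natDegree := by
    rw [eval_eq_sum_range, sum_range_succ]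
    rfl
  have h3 : (j : ℤ) ^ f.natDegree = j * (j : ℤ) ^ k := by
    rw [hk]
    ring
  have h4 : (2 * B : ℤ) ≤ j := by exact_mod_cast hj
  have h5 : (0 : ℤ) ≤ (j : ℤ) ^ k := by positivity
  have h6 : (0 : ℤ) ≤ (j : ℤ) * (j : ℤ) ^ k := by positivity
  rw [h2, h3]
  push_cast
  rw [h3]
  nlinarith

/-- **Goldbach representations of all multiples of the moduli near polynomial values.** -/
theorem result : ∃ c : ℝ, 0 < c ∧
    -- (1) moduli near the values of a polynomial
    (∀ F : ℤ[X], 1 ≤ F.natDegree → 0 < F.leadingCoeff → ∀ (A U m : ℕ) (ε δ : ℝ), 0 < ε → ε ≤ 1 / 2 → 0 < δ →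
      ∃ x₀ : ℕ, ∀ x : ℕ, x₀ ≤ x → ∃ E : Finset ℕ, (E.card : ℝ) ≤ x / Real.log x ^ U ∧
        ∀ j ∈ Icc 1 x, j ∉ E → ∀ q : ℕ, 1 ≤ q → |((q - F.eval (j : ℤ) : ℤ) : ℝ)| ≤ Real.log x ^ A →
          ∀ n : ℕ, 0 < n → Even n → q ∣ n → (n : ℝ) ≤ q * Real.log x ^ A → Regular c A m ε δ n) ∧
    -- (2) moduli near the members of a sequence of small additive energy
    ∀ (h A C U m : ℕ) (ε δ : ℝ), 0 < ε → ε ≤ 1 / 2 → 0 < δ →
      ∃ N₀ : ℕ, ∀ N : ℕ, N₀ ≤ N → ∀ (x : ℕ) (v : ℕ → ℤ), (∀ j ∈ Icc 1 x, |v j| ≤ N) →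
        (energy h x v : ℝ) * N ≤ Real.log N ^ C * (x : ℝ) ^ (2 * h) →
        ∃ E : Finset ℕ, (E.card : ℝ) ≤ x / Real.log N ^ U ∧ ∀ j ∈ Icc 1 x, j ∉ E →
          ∀ q : ℕ, 1 ≤ q → |((q - v j : ℤ) : ℝ)| ≤ Real.log N ^ A → ∀ n : ℕ, Even n → q ∣ n →
            (N : ℝ) / Real.log N ^ A ≤ n → (n : ℝ) ≤ q * Real.log N ^ A → Regular c A m ε δ n := by
  classical
  obtain ⟨c, hc, hfam⟩ := fam
  refine ⟨c, hc, fun F hd hl A U m ε δ hε hε1 hδ => ?_, hfam⟩
  obtain ⟨h, C, hC, hen⟩ := Pool.Agent.H373R2.T7.energy_poly F hd hl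
  set k : ℕ := F.natDegree with hk
  set B : ℕ := ∑ i ∈ range (k + 1), (F.coeff i).natAbs with hB
  have hB1 : 1 ≤ B := by
    have h1 : (F.coeff F.natDegree).natAbs ≤ B := by
      rw [hB, hk]
      exact single_le_sum (f := fun i => (F.coeff i).natAbs) (fun i _ => Nat.zero_le _)
        (mem_range.2 (Nat.lt_succ_self _))
    have h2 : F.coeff F.natDegree = F.leadingCoeff := rfl
    rw [h2] at h1
    omega
  set A₁ : ℕ := A + k * (U + 1) + 2 with hA₁
  obtain ⟨N₀, h0⟩ := hfam h A₁ 2 (U + 1) m ε δ hε hε1 hδ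
  obtain ⟨N₁, h1⟩ := Pool.Agent.H373R2.T7.ev_L' (max C (4 * B + 4))
  obtain ⟨N₂, h2⟩ := Pool.Agent.Helper51.UG.ev_logpow (4 * B) (A + (k + 1) * (U + 1)) 1 (by norm_num)
  refine ⟨max (max N₀ N₁) (max N₂ 3), fun x hx => ?_⟩
  have g0 : N₀ ≤ x := ((le_max_left _ _).trans (le_max_left _ _)).trans hx
  have g1 := h1 x (((le_max_right _ _).trans (le_max_left _ _)).trans hx)
  have g2 := h2 x (((le_max_left _ _).trans (le_max_right _ _)).trans hx)
  have g3 : 3 ≤ x := ((le_max_right _ _).trans (le_max_right _ _)).trans hx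
  rw [Real.rpow_one] at g2
  have hx3 : (3 : ℝ) ≤ x := by exact_mod_cast g3
  have hx0 : (0 : ℝ) < x := by linarith
  have hx1 : (1 : ℝ) ≤ x := by linarith
  set L : ℝ := Real.log x with hL
  have hBr : (1 : ℝ) ≤ B := by exact_mod_cast hB1
  have hLC : C ≤ L := (le_max_left _ _).trans g1
  have hLB : 4 * (B : ℝ) + 4 ≤ L := (le_max_right _ _).trans g1
  have hL1 : 1 ≤ L := by linarith
  have hL0 : 0 < L := by linarith
  set N : ℕ := B * x ^ k with hN
  have hxk : x ≤ x ^ k := Nat.le_self_pow (by omega) x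
  have hxN : x ≤ N := hxk.trans (Nat.le_mul_of_pos_left _ hB1)
  have hNR : (N : ℝ) = B * (x : ℝ) ^ k := by
    rw [hN]
    push_cast
    rfl
  set L' : ℝ := Real.log N with hL'
  have hLL' : L ≤ L' := Real.log_le_log hx0 (by exact_mod_cast hxN)
  have hL'1 : 1 ≤ L' := by linarith
  have hen' : (energy h x (fun j => F.eval (j : ℤ)) : ℝ) * N ≤ L' ^ 2 * (x : ℝ) ^ (2 * h) := by
    have h3 := hen x (by omega)
    have h4 : (energy h x (fun j => F.eval (j : ℤ)) : ℝ) * (x : ℝ) ^ k ≤ C * (x : ℝ) ^ (2 * h) := h3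
    rw [hNR]
    have h5 : C * B ≤ L' ^ 2 := by nlinarith
    calc (energy h x (fun j => F.eval (j : ℤ)) : ℝ) * (B * (x : ℝ) ^ k)
        = B * ((energy h x (fun j => F.eval (j : ℤ)) : ℝ) * (x : ℝ) ^ k) := by ring
      _ ≤ B * (C * (x : ℝ) ^ (2 * h)) := mul_le_mul_of_nonneg_left h4 (by linarith)
      _ = (C * B) * (x : ℝ) ^ (2 * h) := by ring
      _ ≤ L' ^ 2 * (x : ℝ) ^ (2 * h) := mul_le_mul_of_nonneg_right h5 (by positivity)
  obtain ⟨E, hEc, hE⟩ := h0 N (g0.trans hxN) x (fun j => F.eval (j : ℤ)) (fun j hj => by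
    rw [mem_Icc] at hj
    have h3 := eval_le F x j hj.2 (by omega)
    rw [← hk, ← hB] at h3
    refine h3.trans (le_of_eq ?_)
    rw [hN]
    push_cast
    rfl) hen'
  set y : ℕ := ⌊(x : ℝ) / L ^ (U + 1)⌋₊ with hy
  refine ⟨E ∪ Icc 1 y, ?_, ?_⟩
  · have e1 : ((E ∪ Icc 1 y).card : ℝ) ≤ E.card + (Icc 1 y).card := by exact_mod_cast card_union_le _ _
    have e2 : ((Icc 1 y).card : ℝ) ≤ x / L ^ (U + 1) := by
      rw [Nat.card_Icc, Nat.add_sub_cancel, hy]
      exact Nat.floor_le (by positivity)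
    have e3 : (x : ℝ) / L' ^ (U + 1) ≤ x / L ^ (U + 1) := by gcongr
    have e4 : (x : ℝ) / L ^ (U + 1) + x / L ^ (U + 1) ≤ x / L ^ U := by
      have e5 : (x : ℝ) / L ^ U = x / L ^ (U + 1) * L := by
        rw [pow_succ]
        field_simp
      have e6 : 0 ≤ (x : ℝ) / L ^ (U + 1) := by positivity
      rw [e5]
      nlinarith
    linarith
  · intro j hj hjE q hq hqF n hn0 hev hqn hnq
    rw [mem_union, not_or, mem_Icc, not_and] at hjE
    have hj1 := (mem_Icc.1 hj).1
    have hyj : y < j := by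
      have := hjE.2 hj1
      omega
    have hjx : (x : ℝ) / L ^ (U + 1) < j := by
      rw [hy] at hyj
      exact (Nat.floor_lt (by positivity)).1 hyj
    have hxj : (x : ℝ) < j * L ^ (U + 1) := by
      rw [div_lt_iff₀ (by positivity)] at hjx
      exact hjx
    -- `j` is large
    have hpow : L ^ (U + 1) ≤ L ^ (A + (k + 1) * (U + 1)) := pow_le_pow_right₀ hL1 (by nlinarith)
    have hj4B : 2 * B ≤ j := by
      by_contra hcon
      push Not at hcon
      have e1 : (j : ℝ) < 2 * B := by exact_mod_cast hcon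
      have e2 : (x : ℝ) < 2 * B * L ^ (U + 1) := lt_of_lt_of_le hxj (mul_le_mul_of_nonneg_right e1.le (by positivity))
      have e3 : 2 * B * L ^ (U + 1) ≤ 4 * B * L ^ (A + (k + 1) * (U + 1)) := by
        apply mul_le_mul _ hpow (by positivity) (by positivity)
        linarith
      linarith
    have hFj := le_eval F hd hl j (by rw [← hk, ← hB]; exact hj4B)
    rw [← hk] at hFj
    have hFjr : (j : ℝ) ^ k ≤ 2 * (F.eval (j : ℤ) : ℤ) := by exact_mod_cast hFj
    -- `q` is large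
    have hjk : (x : ℝ) ^ k ≤ (j : ℝ) ^ k * L ^ (k * (U + 1)) := by
      calc (x : ℝ) ^ k ≤ (j * L ^ (U + 1)) ^ k := pow_le_pow_left₀ hx0.le hxj.le k
        _ = (j : ℝ) ^ k * L ^ (k * (U + 1)) := by
            rw [mul_pow, ← pow_mul]
            congr 2
            ring
    have hqF2 : (F.eval (j : ℤ) : ℤ) - (L ^ A : ℝ) ≤ q := by
      have e1 := (abs_le.1 hqF).1
      push_cast at e1
      linarith
    have hq4 : (x : ℝ) ^ k ≤ 4 * q * L ^ (k * (U + 1)) := by
      have e1 : (x : ℝ) ^ k ≤ (2 * (q + L ^ A)) * L ^ (k * (U + 1)) := by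
        refine hjk.trans ?_
        apply mul_le_mul_of_nonneg_right _ (by positivity)
        linarith
      have e2 : 4 * L ^ A * L ^ (k * (U + 1)) ≤ x := by
        calc 4 * L ^ A * L ^ (k * (U + 1)) = 4 * L ^ (A + k * (U + 1)) := by ring
          _ ≤ 4 * B * L ^ (A + (k + 1) * (U + 1)) := by
              apply mul_le_mul _ _ (by positivity) (by positivity)
              · linarith
              · exact pow_le_pow_right₀ hL1 (by nlinarith)
          _ ≤ x := g2
      have e3 : (x : ℝ) ≤ (x : ℝ) ^ k := by exact_mod_cast hxk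
      nlinarith
    have hqn' : q ≤ n := Nat.le_of_dvd hn0 hqn
    have hqnr : (q : ℝ) ≤ n := by exact_mod_cast hqn'
    have hAA : L ^ A ≤ L' ^ A₁ :=
      (pow_le_pow_right₀ hL1 (by omega)).trans (pow_le_pow_left₀ hL0.le hLL' A₁)
    have hnN : (N : ℝ) / L' ^ A₁ ≤ n := by
      rw [div_le_iff₀ (by positivity), hNR]
      have e1 : 4 * B * L ^ (k * (U + 1)) ≤ L ^ A₁ := by
        calc 4 * B * L ^ (k * (U + 1)) ≤ L * L ^ (k * (U + 1)) :=
              mul_le_mul_of_nonneg_right (by linarith) (by positivity)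
          _ = L ^ (k * (U + 1) + 1) := by ring
          _ ≤ L ^ A₁ := pow_le_pow_right₀ hL1 (by omega)
      calc (B : ℝ) * (x : ℝ) ^ k ≤ B * (4 * q * L ^ (k * (U + 1))) := mul_le_mul_of_nonneg_left hq4 (by linarith)
        _ = q * (4 * B * L ^ (k * (U + 1))) := by ring
        _ ≤ n * L ^ A₁ := mul_le_mul hqnr e1 (by positivity) (by positivity)
        _ ≤ n * L' ^ A₁ := by gcongr
    have hreg : Regular c A₁ m ε δ n := hE j hj hjE.1 q hq (hqF.trans hAA) n hev hqn hnN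
      (hnq.trans (mul_le_mul_of_nonneg_left hAA (by positivity)))
    refine Pool.Agent.Helper51.UG.GoldReg.mono (A' := A₁) hreg (by omega) ?_
    -- `log n ≥ 1`
    have e1 : (4 : ℝ) * L ^ (k * (U + 1)) * 3 ≤ (x : ℝ) ^ k := by
      have e2 : 4 * (B : ℝ) * L ^ (A + (k + 1) * (U + 1)) ≤ (x : ℝ) ^ k := g2.trans (by exact_mod_cast hxk)
      have e3 : L ^ (k * (U + 1)) * L ≤ L ^ (A + (k + 1) * (U + 1)) := by
        calc L ^ (k * (U + 1)) * L = L ^ (k * (U + 1) + 1) := by ring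
          _ ≤ L ^ (A + (k + 1) * (U + 1)) := pow_le_pow_right₀ hL1 (by nlinarith)
      have e4 : 0 < L ^ (k * (U + 1)) := by positivity
      have e5 : 4 * L ^ (k * (U + 1)) * 3 ≤ 4 * (L ^ (k * (U + 1)) * L) := by nlinarith
      have e6 : 4 * (L ^ (k * (U + 1)) * L) ≤ 4 * (B : ℝ) * L ^ (A + (k + 1) * (U + 1)) :=
        mul_le_mul (by linarith) e3 (by positivity) (by positivity)
      linarith
    have e5 : (3 : ℝ) ≤ n := by
      have e6 : 0 < 4 * L ^ (k * (U + 1)) := by positivity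
      have e7 : 3 * (4 * L ^ (k * (U + 1))) ≤ n * (4 * L ^ (k * (U + 1))) := by nlinarith
      exact le_of_mul_le_mul_right e7 e6
    rw [← Real.log_exp 1]
    exact Real.log_le_log (Real.exp_pos 1) (by linarith [Real.exp_one_lt_d9])

end Pool.Agent.Results.MP_92f640_nt.ModuliNearPolynomials
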