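import Pool.Agent.Helper34.GX.Both

/-!
# Goldbach lower bounds on the multiples of `q`, and in all residue classes, for the moduli up to `x ^ (5 / 6 - ρ)`

There is a set `D` of at most `(log x) ^ c` integers, all of them larger than any given power of `log x`, such
that every modulus `q ≤ x ^ (5 / 6 - ρ)` which is not divisible by a member of `D` satisfies the assertion of
the problem with `δ = 1 / 12`; moreover, in every residue class modulo such a `q` all but at most
`x / (q (log x)^A)` of the even integers `n ≤ x` have in every window of length at least `n / (log n) ^ W` at least one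
twelfth of the number of representations which Hardy and Littlewood predict. In the classes `a` modulo `q` with
`(a, q) ≤ (log x) ^ T` the same holds for every `q ≤ x ^ (5 / 6 - ρ)`, without the condition on `D`.

Definitions used (in `Pool.Agent.H560R3.GB`): `g n`: the number of ordered pairs of primes `(p₁, p₂)` with
`p₁ + p₂ = n`; `sing n = 2 C₂ ∏_{p ∣ n, p > 2} (p - 1) / (p - 2)`, `C₂ = ∏_{p > 2} (1 - 1 / (p - 1) ^ 2)`.
`reps n y₁ y₂` (below): the number of the primes `p` with `y₁ < p ≤ y₂` and `n - p` prime.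

Proof (`Helper34/GX`). The minorant: `gm(n) = log N (1 - ω(n) + ∑ v(p p'))` for the integers `n` without prime factors
up to `N ^ (1/6)`, where `ω` counts the prime factors up to `√N`, the sum is over the pairs of prime factors, and the
weight `v` is `0` up to `N ^ (5/12)`, `-1` up to `√N`, `2` up to `N ^ (233/400)`, `0` beyond. It is `≤ 0` at the
composite numbers (squarefree, near `N`), its local density is `> 9 / 100` (finite computation by the kernel), and it is a
combination of sums of type I of level `N ^ (583/1000)` and bilinear sums with the smaller variable in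
`[N ^ (1/2000), N ^ (1/6)]`.
-/

set_option autoImplicit false

namespace Pool.Agent.Results.MP_92f640_nt.ModuliUpToFiveSixths

open Finset
open Pool.Agent.H560R3.GB (g HL sing)
open Pool.Agent.W93.PG (cnt)

/-- The number of the primes `p` with `y₁ < p ≤ y₂` such that `n - p` is prime. -/
def reps (n y₁ y₂ : ℕ) : ℕ := ((Ioc y₁ y₂).filter (fun p => p.Prime ∧ (n - p).Prime)).card

/-- `g n` is at least one twelfth of the prediction of Hardy and Littlewood, and so is the number of the
representations in every window `(y₁, y₂] ⊆ (0, n]` of length at least `n / (log n) ^ W`. -/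
def Good (W n : ℕ) : Prop :=
  1 / 12 * (sing n * (n / Real.log n ^ 2)) ≤ (g n : ℝ) ∧
  ∀ y₁ y₂ : ℕ, y₁ < y₂ → y₂ ≤ n → (n : ℝ) / Real.log n ^ W ≤ (y₂ : ℝ) - y₁ →
    1 / 12 * (sing n * (((y₂ : ℝ) - y₁) / Real.log n ^ 2)) ≤ (reps n y₁ y₂ : ℝ)

/-- The even integers `n ≡ a (mod q)` with `0 < n ≤ x` for which `Good W n` fails. -/
def exceptional (W : ℕ) (x : ℝ) (q : ℕ) (a : ℤ) : Set ℕ :=
  {n : ℕ | 0 < n ∧ (n : ℝ) ≤ x ∧ 2 ∣ n ∧ (n : ℤ) ≡ a [ZMOD q] ∧ ¬ Good W n}

/-- The even multiples `n` of `q` with `x / 2 < n ≤ x` and `g n < δ n / (log n)²`, as in the problem. -/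
def few (δ x : ℝ) (q : ℕ) : Set ℕ :=
  {n : ℕ | x / 2 < n ∧ (n : ℝ) ≤ x ∧ 2 ∣ n ∧ q ∣ n ∧ (g n : ℝ) < δ * (n / Real.log n ^ 2)}

theorem cnt_eq (n : ℕ) : cnt n 0 n = g n := by
  unfold cnt g
  refine card_bij (fun p _ => (p, n - p)) ?_ ?_ ?_
  · intro p hp
    rw [mem_filter, mem_Ioc] at hp
    rw [mem_filter, HasAntidiagonal.mem_antidiagonal]
    exact ⟨by simp only; omega, hp.2⟩
  · intro p _ p' _ h
    exact congrArg Prod.fst h
  · rintro ⟨a, b⟩ h
    rw [mem_filter, HasAntidiagonal.mem_antidiagonal] at h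
    obtain ⟨h1, h2, h3⟩ := h
    simp only at h1 h2 h3
    have ha := h2.pos
    refine ⟨a, ?_, ?_⟩
    · rw [mem_filter, mem_Ioc]
      refine ⟨⟨ha, by omega⟩, h2, ?_⟩
      have : n - a = b := by omega
      rw [this]
      exact h3
    · have : n - a = b := by omega
      simp [this]

theorem good_of (W : ℕ) : ∃ n₀ : ℕ, ∀ n : ℕ, n₀ ≤ n → 2 ∣ n → Pool.Agent.Helper34.GX.WinM W n → Good W n := by
  refine ⟨3, fun n hn _ hw => ?_⟩
  have hwin : ∀ y₁ y₂ : ℕ, y₁ < y₂ → y₂ ≤ n → (n : ℝ) / Real.log n ^ W ≤ (y₂ : ℝ) - y₁ →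
      1 / 12 * (sing n * (((y₂ : ℝ) - y₁) / Real.log n ^ 2)) ≤ (reps n y₁ y₂ : ℝ) := by
    intro y₁ y₂ h1 h2 h3
    have h4 := hw y₁ y₂ h1 h2 h3
    refine le_trans (le_of_eq ?_) h4
    ring
  refine ⟨?_, hwin⟩
  have hl : 1 ≤ Real.log n := by
    have h3 : (3 : ℝ) ≤ n := by exact_mod_cast hn
    rw [Real.le_log_iff_exp_le (by linarith)]
    have := Real.exp_one_lt_d9
    linarith
  have h5 := hwin 0 n (by omega) le_rfl (by
    rw [Nat.cast_zero, sub_zero]
    exact div_le_self (Nat.cast_nonneg _) (one_le_pow₀ hl))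
  rw [Nat.cast_zero, sub_zero] at h5
  have h6 : reps n 0 n = g n := cnt_eq n
  rwa [h6] at h5

/-- For all `ρ > 0`, `A`, `T` and `W` there is `c` such that for all `B` and all sufficiently large real `x` there is a
finite set `D` of at most `(log x) ^ c` integers, all of them larger than `(log x) ^ B`, with the following property.
Let `1 ≤ q ≤ x ^ (5 / 6 - ρ)`. Then (1) for every integer `a`, if `gcd(a, q) ≤ (log x) ^ T` or `q` is not divisible by
a member of `D`, all but at most `x / (q (log x)^A)` of the even integers `0 < n ≤ x`, `n ≡ a (mod q)`, satisfy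
`g n ≥ (1 / 12) sing n * n / (log n)²`, and the same lower bound in every window of length at least `n / (log n)^W`;
(2) if `q` is not divisible by a member of `D`, all but at most `x / (8 q)` of the even multiples `n` of `q` in
`(x / 2, x]` satisfy `g n ≥ n / (12 (log n)²)`, which is the assertion of the problem for `q`, with `δ = 1 / 12`. -/
theorem result (ρ : ℝ) (hρ : 0 < ρ) (A T W : ℕ) :
    ∃ c : ℕ, ∀ B : ℕ, ∃ x₀ : ℝ, ∀ x : ℝ, x₀ ≤ x → ∃ D : Finset ℕ, (D.card : ℝ) ≤ Real.log x ^ c ∧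
      (∀ d ∈ D, Real.log x ^ B < (d : ℝ)) ∧
      ∀ q : ℕ, 1 ≤ q → (q : ℝ) ≤ x ^ (5 / 6 - ρ) →
        (∀ a : ℤ, ((Int.gcd a q : ℝ) ≤ Real.log x ^ T ∨ ∀ d ∈ D, ¬ d ∣ q) →
          (exceptional W x q a).Finite ∧ ((exceptional W x q a).ncard : ℝ) ≤ x / (q * Real.log x ^ A)) ∧
        ((∀ d ∈ D, ¬ d ∣ q) → (few (1 / 12) x q).Finite ∧ ((few (1 / 12) x q).ncard : ℝ) ≤ x / (8 * q)) := by
  obtain ⟨c, h⟩ := Pool.Agent.Helper34.GXR.class_few_both4 (fun n => Good W n) W (good_of W) ρ hρ (A + 1) T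
  refine ⟨c, fun B => ?_⟩
  obtain ⟨x₀, h0⟩ := h B
  refine ⟨max x₀ (Real.exp 8), fun x hx => ?_⟩
  obtain ⟨D, hD1, hD2, hD3⟩ := h0 x ((le_max_left _ _).trans hx)
  have hx8 : Real.exp 8 ≤ x := (le_max_right _ _).trans hx
  have hx0 : 0 < x := lt_of_lt_of_le (Real.exp_pos _) hx8
  have hl8 : 8 ≤ Real.log x := by rw [Real.le_log_iff_exp_le hx0]; exact hx8
  refine ⟨D, hD1, hD2, fun q hq hqx => ?_⟩
  have hq0 : (0 : ℝ) < q := by exact_mod_cast hq
  have key : ∀ a : ℤ, ((Int.gcd a q : ℝ) ≤ Real.log x ^ T ∨ ∀ d ∈ D, ¬ d ∣ q) → (exceptional W x q a).Finite ∧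
      ((exceptional W x q a).ncard : ℝ) ≤ x / (q * Real.log x ^ (A + 1)) := fun a ha => hD3 q hq hqx a ha
  refine ⟨fun a ha => ⟨(key a ha).1, (key a ha).2.trans ?_⟩, fun hqD => ?_⟩
  · apply div_le_div_of_nonneg_left hx0.le (by positivity)
    exact mul_le_mul_of_nonneg_left (pow_le_pow_right₀ (by linarith) (Nat.le_succ _)) hq0.le
  · obtain ⟨f1, f2⟩ := key 0 (Or.inr hqD)
    have hsub : few (1 / 12) x q ⊆ exceptional W x q 0 := by
      rintro n ⟨e1, e2, e3, e4, e5⟩
      have hn0 : 0 < n := by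
        have : (0 : ℝ) < n := by linarith
        exact_mod_cast this
      refine ⟨hn0, e2, e3, ?_, ?_⟩
      · exact (Int.modEq_zero_iff_dvd).2 (by exact_mod_cast e4)
      · intro h1
        have h1' := h1.1
        have h2 := Pool.Agent.R460.GS.one_le_sing n
        have h3 : (0 : ℝ) ≤ (n : ℝ) / Real.log n ^ 2 := by positivity
        nlinarith
    refine ⟨f1.subset hsub, ?_⟩
    have h4 : ((few (1 / 12) x q).ncard : ℝ) ≤ ((exceptional W x q 0).ncard : ℝ) := by
      exact_mod_cast Set.ncard_le_ncard hsub f1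
    refine h4.trans (f2.trans ?_)
    apply div_le_div_of_nonneg_left hx0.le (by positivity)
    rw [mul_comm (8 : ℝ)]
    apply mul_le_mul_of_nonneg_left _ hq0.le
    calc (8 : ℝ) ≤ Real.log x := hl8
      _ = Real.log x ^ 1 := (pow_one _).symm
      _ ≤ Real.log x ^ (A + 1) := pow_le_pow_right₀ (by linarith) (by omega)

end Pool.Agent.Results.MP_92f640_nt.ModuliUpToFiveSixths
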