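import Pool.Agent.Helper34.GF.All
import Pool.Agent.Helper34.GF.Low
import Pool.Agent.Helper34.GF.Mer

/-!
# Sums of a prime and a product of two primes on the multiples of `q`, for all moduli `q ≤ x ^ (1 - ε)`

The equation `n = p + k p'` with primes `p`, `p'` and `k ∈ K`, where `K` is an ARBITRARY set of primes between
`x ^ κ` and `x ^ τ`, `0 < κ`, `0 < τ ≤ 1 / 51`. There is a set `D` of at most `(log x) ^ c` integers, all of them larger
than any given power of `log x`, such that for every modulus `q ≤ x ^ (1 - τ - ρ)` which is not divisible by a member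
of `D`, in EVERY residue class modulo `q` all but at most `x / (q (log x) ^ A)` of the even integers `n ≤ x` satisfy the
asymptotic formula for the (weighted) number of the solutions, in all windows. In the classes `a` modulo `q` with
`(a, q) ≤ (log x) ^ T` the same holds for every `q ≤ x ^ (1 - τ - ρ)`, without the condition on `D`.

In particular (`K` the set of all primes of the range, `κ` small): for every `ε > 0` and every `δ > 0` the assertion of
the problem holds for every `q ≤ x ^ (1 - ε)` which is not divisible by one of few large integers, if one of the two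
primes is replaced by a product of two primes, one of them small.

Definition used (in `Pool.Agent.H560R3.GB`): `sing n = 2 C₂ ∏_{p ∣ n, p > 2} (p - 1) / (p - 2)`,
`C₂ = ∏_{p > 2} (1 - 1 / (p - 1) ^ 2)`.

Proof (`Helper34/GE`, `Helper34/GF`): `∑_{k ∣ n, k ∈ K} Λ(n / k)` is a bilinear sum whose smaller variable is a small
power of `x`: on the major and on the minor arcs its Fourier coefficients over all characters modulo `q` are small for
`q ≤ x ^ (1 - τ - ρ)`, up to few characters; the framework of the library for the sums over the residue classes is used.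
-/

set_option autoImplicit false

namespace Pool.Agent.Results.MP_92f640_nt.PrimeCoefficients

open Finset
open Pool.Agent.H560R3.GB (sing)

/-- The number of the solutions of `p + k p' = n` in primes `p`, `p'` and `k ∈ K`. -/
noncomputable def sols (K : Finset ℕ) (n : ℕ) : ℕ :=
  Set.ncard {s : ℕ × ℕ × ℕ | s.1.Prime ∧ s.2.1 ∈ K ∧ s.2.2.Prime ∧ s.1 + s.2.1 * s.2.2 = n}

/-- The sum of `log p log p'` over the solutions of `p + k p' = n` in primes `p`, `p'` and `k ∈ K` with `y < p ≤ z`. -/
noncomputable def weighted (K : Finset ℕ) (n y z : ℕ) : ℝ :=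
  ∑ p ∈ (Ioc y z).filter Nat.Prime, ∑ k ∈ K.filter (fun k => k ∣ n - p ∧ ((n - p) / k).Prime),
    Real.log p * Real.log ((n - p) / k : ℕ)

/-- The sum of `1 / k` over `K`. -/
noncomputable def dens (K : Finset ℕ) : ℝ := ∑ k ∈ K, (1 : ℝ) / k

/-- The asymptotic formula for `n`, in all windows `(y, z]`, with the error `x / (log x) ^ V`. -/
def Asym (V : ℕ) (x : ℝ) (K : Finset ℕ) (n : ℕ) : Prop :=
  ∀ y z : ℕ, y ≤ z → z < n → |weighted K n y z - sing n * dens K * ((z : ℝ) - y)| ≤ x / Real.log x ^ V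

/-- The even integers `n ≡ a (mod q)` with `0 < n ≤ x` for which `Asym V x K n` fails. -/
def exceptional (V : ℕ) (x : ℝ) (K : Finset ℕ) (q : ℕ) (a : ℤ) : Set ℕ :=
  {n : ℕ | 0 < n ∧ (n : ℝ) ≤ x ∧ 2 ∣ n ∧ (n : ℤ) ≡ a [ZMOD q] ∧ ¬ Asym V x K n}

/-- The even multiples `n` of `q` with `x / 2 < n ≤ x` and less than `δ n / (log n)²` solutions. -/
def few (δ x : ℝ) (K : Finset ℕ) (q : ℕ) : Set ℕ :=
  {n : ℕ | x / 2 < n ∧ (n : ℝ) ≤ x ∧ 2 ∣ n ∧ q ∣ n ∧ (sols K n : ℝ) < δ * (n / Real.log n ^ 2)}

/-- For all `κ > 0`, `0 < τ ≤ 1 / 51`, `ρ > 0`, `A`, `T` and `V` there is `c` such that for all `B`, all sufficiently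
large real `x` and EVERY finite set `K` of primes in `[x ^ κ, x ^ τ]` there is a finite set `D` of at most
`(log x) ^ c` integers, all of them larger than `(log x) ^ B`, with the following property. Let
`1 ≤ q ≤ x ^ (1 - τ - ρ)`. Then
(1) for every integer `a`, if `gcd(a, q) ≤ (log x) ^ T` or `q` is not divisible by a member of `D`, all but at most
`x / (q (log x) ^ A)` of the even integers `0 < n ≤ x`, `n ≡ a (mod q)`, satisfy the asymptotic formula `Asym V x K n`:
for all integers `0 ≤ y ≤ z < n` the weighted number of the solutions of `n = p + k p'` with `y < p ≤ z` differs from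
`sing n * (∑_{k ∈ K} 1 / k) * (z - y)` by at most `x / (log x) ^ V`;
if `q` is not divisible by a member of `D`, all but at most `x / (8 q)` of the even multiples `n` of `q` in
`(x / 2, x]` have
(2) at least `(H / 2) n / (log n)²` solutions of `n = p + k p'` if `H = ∑_{k ∈ K} 1 / k ≥ 1 / (log x) ^ V`;
(3) at least `(log (τ / κ) / 3) n / (log n)²` solutions if `K` contains all the primes in `[x ^ κ, x ^ τ]`. -/
theorem result (κ τ ρ : ℝ) (hκ : 0 < κ) (hτ0 : 0 < τ) (hτ : τ ≤ 1 / 51) (hρ : 0 < ρ) (A T V : ℕ) :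
    ∃ c : ℕ, ∀ B : ℕ, ∃ x₀ : ℝ, ∀ x : ℝ, x₀ ≤ x → ∀ K : Finset ℕ,
      (∀ k ∈ K, k.Prime ∧ x ^ κ ≤ k ∧ (k : ℝ) ≤ x ^ τ) →
      ∃ D : Finset ℕ, (D.card : ℝ) ≤ Real.log x ^ c ∧ (∀ d ∈ D, Real.log x ^ B < (d : ℝ)) ∧
      ∀ q : ℕ, 1 ≤ q → (q : ℝ) ≤ x ^ (1 - τ - ρ) →
        (∀ a : ℤ, ((Int.gcd a q : ℝ) ≤ Real.log x ^ T ∨ ∀ d ∈ D, ¬ d ∣ q) →
          (exceptional V x K q a).Finite ∧
          ((exceptional V x K q a).ncard : ℝ) ≤ x / (q * Real.log x ^ A)) ∧
        ((∀ d ∈ D, ¬ d ∣ q) →
          (1 / Real.log x ^ V ≤ dens K →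
            (few (dens K / 2) x K q).Finite ∧ ((few (dens K / 2) x K q).ncard : ℝ) ≤ x / (8 * q)) ∧
          ((∀ k : ℕ, k.Prime → x ^ κ ≤ k → (k : ℝ) ≤ x ^ τ → k ∈ K) →
            (few (Real.log (τ / κ) / 3) x K q).Finite ∧
            ((few (Real.log (τ / κ) / 3) x K q).ncard : ℝ) ≤ x / (8 * q))) := by
  obtain ⟨c, h⟩ := Pool.Agent.Helper34.GF.thm_final hκ hτ0 hτ (show 1 - τ - ρ < 1 - τ by linarith) (A + 1) T (V + 3)
  -- the density of the set of all primes of the range
  obtain ⟨x₁, hx₁⟩ : ∃ x₁ : ℝ, κ < τ → ∀ x : ℝ, x₁ ≤ x → ∀ K : Finset ℕ,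
      (∀ k : ℕ, k.Prime → x ^ κ ≤ k → (k : ℝ) ≤ x ^ τ → k ∈ K) → 2 / 3 * Real.log (τ / κ) ≤ dens K := by
    by_cases hκτ : κ < τ
    · have hpos : 0 < Real.log (τ / κ) := Real.log_pos (by rw [lt_div_iff₀ hκ]; linarith)
      obtain ⟨x₁, h1⟩ := Pool.Agent.Helper34.GF.mertens_lower hκ hκτ (ε := Real.log (τ / κ) / 3) (by positivity)
      refine ⟨x₁, fun _ x hx K hK => ?_⟩
      have := h1 x hx K hK
      unfold dens
      linarith
    · exact ⟨0, fun h => absurd h hκτ⟩
  refine ⟨c, fun B => ?_⟩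
  obtain ⟨x₀, h⟩ := h B
  obtain ⟨x₂, hx₂⟩ := Filter.eventually_atTop.1
    (Real.tendsto_log_atTop.eventually_ge_atTop (8 + 3 / (2 * Real.log (τ / κ))))
  refine ⟨max (max x₀ x₁) (max x₂ (Real.exp 8)), fun x hx K hK => ?_⟩
  have hxx0 : x₀ ≤ x := (le_max_left _ _).trans ((le_max_left _ _).trans hx)
  have hxx1 : x₁ ≤ x := (le_max_right _ _).trans ((le_max_left _ _).trans hx)
  have hxx2 := hx₂ x ((le_max_left _ _).trans ((le_max_right _ _).trans hx))
  have hx8 : Real.exp 8 ≤ x := (le_max_right _ _).trans ((le_max_right _ _).trans hx)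
  have hx0 : 0 < x := lt_of_lt_of_le (Real.exp_pos _) hx8
  have hl8 : 8 ≤ Real.log x := by rw [Real.le_log_iff_exp_le hx0]; exact hx8
  obtain ⟨D, hD1, hD2, hD3⟩ := h x hxx0 K hK
  refine ⟨D, hD1, hD2, fun q hq hqx => ?_⟩
  have hq0 : (0 : ℝ) < q := by exact_mod_cast hq
  have key : ∀ a : ℤ, ((Int.gcd a q : ℝ) ≤ Real.log x ^ T ∨ ∀ d ∈ D, ¬ d ∣ q) →
      (exceptional (V + 3) x K q a).Finite ∧
      ((exceptional (V + 3) x K q a).ncard : ℝ) ≤ x / (q * Real.log x ^ (A + 1)) :=
    fun a ha => hD3 q hq hqx a ha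
  refine ⟨fun a ha => ?_, fun hqD => ?_⟩
  · obtain ⟨f1, f2⟩ := key a ha
    have hsub : exceptional V x K q a ⊆ exceptional (V + 3) x K q a := by
      rintro n ⟨e1, e2, e3, e4, e5⟩
      refine ⟨e1, e2, e3, e4, fun h1 => e5 fun y z hyz hz => (h1 y z hyz hz).trans ?_⟩
      exact div_le_div_of_nonneg_left hx0.le (by positivity) (pow_le_pow_right₀ (by linarith) (by omega))
    refine ⟨f1.subset hsub, ?_⟩
    have h4 : ((exceptional V x K q a).ncard : ℝ) ≤ ((exceptional (V + 3) x K q a).ncard : ℝ) := by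
      exact_mod_cast Set.ncard_le_ncard hsub f1
    refine h4.trans (f2.trans ?_)
    apply div_le_div_of_nonneg_left hx0.le (by positivity)
    exact mul_le_mul_of_nonneg_left (pow_le_pow_right₀ (by linarith) (Nat.le_succ _)) hq0.le
  · obtain ⟨f1, f2⟩ := key 0 (Or.inr hqD)
    have hK1 : ∀ k ∈ K, 1 ≤ k := fun k hk => (hK k hk).1.one_le
    -- a lower bound for the solutions, with a general constant
    have main : ∀ δ : ℝ, δ ≤ dens K / 2 → 1 ≤ Real.log x ^ (V + 1) * dens K →
        (few δ x K q).Finite ∧ ((few δ x K q).ncard : ℝ) ≤ x / (8 * q) := by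
      intro δ hδ hS
      have hsub : few δ x K q ⊆ exceptional (V + 3) x K q 0 := by
        rintro n ⟨e1, e2, e3, e4, e5⟩
        have hn0 : 0 < n := by
          have : (0 : ℝ) < n := by linarith
          exact_mod_cast this
        refine ⟨hn0, e2, e3, ?_, ?_⟩
        · exact (Int.modEq_zero_iff_dvd).2 (by exact_mod_cast e4)
        · intro h1
          have hs := Pool.Agent.R460.GS.one_le_sing n
          have h2 := h1 0 (n - 1) (Nat.zero_le _) (by omega)
          have h3 := Pool.Agent.Helper34.GF.sols_ge (V := V + 1) hx8 e1 e2 hK1 hs hS h2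
          have h4 : (0 : ℝ) ≤ (n : ℝ) / Real.log n ^ 2 := by positivity
          have hS0 : 0 ≤ dens K := sum_nonneg fun k _ => by positivity
          have h5 : (Pool.Agent.Helper34.GF.sols K n : ℝ) = sols K n := rfl
          rw [h5] at h3
          have h6 : δ * ((n : ℝ) / Real.log n ^ 2) ≤ dens K / 2 * (n / Real.log n ^ 2) :=
            mul_le_mul_of_nonneg_right hδ h4
          have h7 : dens K / 2 * (n / Real.log n ^ 2) ≤ 1 / 2 * (sing n * dens K * (n / Real.log n ^ 2)) := by
            have h8 : 0 ≤ dens K * (n / Real.log n ^ 2) := mul_nonneg hS0 h4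
            nlinarith
          linarith
      refine ⟨f1.subset hsub, ?_⟩
      have h4 : ((few δ x K q).ncard : ℝ) ≤ ((exceptional (V + 3) x K q 0).ncard : ℝ) := by
        exact_mod_cast Set.ncard_le_ncard hsub f1
      refine h4.trans (f2.trans ?_)
      apply div_le_div_of_nonneg_left hx0.le (by positivity)
      rw [mul_comm (8 : ℝ)]
      apply mul_le_mul_of_nonneg_left _ hq0.le
      calc (8 : ℝ) ≤ Real.log x := hl8
        _ = Real.log x ^ 1 := (pow_one _).symm
        _ ≤ Real.log x ^ (A + 1) := pow_le_pow_right₀ (by linarith) (by omega)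
    refine ⟨fun hS => main _ le_rfl ?_, fun hall => ?_⟩
    · have hlV : 0 < Real.log x ^ V := by positivity
      rw [div_le_iff₀ hlV] at hS
      rw [pow_succ]
      nlinarith
    · by_cases hκτ : κ < τ
      · have hpos : 0 < Real.log (τ / κ) := Real.log_pos (by rw [lt_div_iff₀ hκ]; linarith)
        have h1 := hx₁ hκτ x hxx1 K hall
        refine main _ (by linarith) ?_
        have h2 : 3 / (2 * Real.log (τ / κ)) ≤ Real.log x := by linarith
        rw [div_le_iff₀ (by positivity)] at h2
        have h3 : (1 : ℝ) ≤ Real.log x ^ V := one_le_pow₀ (by linarith)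
        have h4 : 1 ≤ Real.log x * dens K := by nlinarith
        have h5 : 0 ≤ Real.log x * dens K := by linarith
        rw [pow_succ]
        nlinarith
      · have h1 : Real.log (τ / κ) ≤ 0 := by
          apply Real.log_nonpos (by positivity)
          rw [div_le_one hκ]
          exact not_lt.1 hκτ
        have h2 : few (Real.log (τ / κ) / 3) x K q = ∅ := by
          ext n
          simp only [Set.mem_empty_iff_false, iff_false]
          rintro ⟨-, -, -, -, e5⟩
          have h3 : (0 : ℝ) ≤ (n : ℝ) / Real.log n ^ 2 := by positivity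
          have h4 : (0 : ℝ) ≤ sols K n := Nat.cast_nonneg _
          nlinarith
        rw [h2]
        refine ⟨Set.finite_empty, ?_⟩
        rw [Set.ncard_empty, Nat.cast_zero]
        positivity

end Pool.Agent.Results.MP_92f640_nt.PrimeCoefficients
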